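import Pool.Agent.Helper56.PC.Semigroup

open Set Filter Topology

namespace Pool.Agent.Helper56.PC

/-- the right limit at x of the monotone function m c -/
noncomputable def rlim (m : ℝ → ℝ → ℝ) (c x : ℝ) : ℝ := sInf (m c '' Ioi x)

section
variable {m : ℝ → ℝ → ℝ} {c : ℝ}

lemma rlim_le (m0 : ∀ α β, c ≤ α → 0 ≤ m α β) {x y : ℝ} (hxy : x < y) :
    rlim m c x ≤ m c y := by
  apply csInf_le
  · refine ⟨0, ?_⟩
    rintro _ ⟨z, _, rfl⟩
    exact m0 c z le_rfl
  · exact ⟨y, hxy, rfl⟩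

lemma exists_lt_rlim {x ε : ℝ} (hε : 0 < ε) : ∃ y, x < y ∧ m c y < rlim m c x + ε := by
  have hne : (m c '' Ioi x).Nonempty := ⟨m c (x + 1), x + 1, by simp, rfl⟩
  obtain ⟨_, ⟨y, hy, rfl⟩, hlt⟩ := Real.lt_sInf_add_pos hne hε
  exact ⟨y, hy, hlt⟩

lemma rlim_mono (m0 : ∀ α β, c ≤ α → 0 ≤ m α β) {x y : ℝ} (hxy : x ≤ y) :
    rlim m c x ≤ rlim m c y := by
  apply le_csInf
  · exact ⟨m c (y + 1), y + 1, by simp, rfl⟩
  · rintro _ ⟨z, hz, rfl⟩
    exact rlim_le m0 (lt_of_le_of_lt hxy hz)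

/-- a right-continuous function on (c,∞) that does not increase under shifts by a dense
semigroup is constant -/
lemma const_of_dense {h : ℝ → ℝ} {S : AddSubmonoid ℝ} (hS : Dense (S : Set ℝ))
    (hr : ∀ x, c < x → ∀ ε > 0, ∃ δ > 0, ∀ y, x < y → y < x + δ → |h y - h x| < ε)
    (hs : ∀ g ∈ S, ∀ z, c < z → c < z + g → h (z + g) ≤ h z) {x y : ℝ} (hx : c < x) (hy : c < y) :
    h y ≤ h x := by
  apply le_of_forall_pos_le_add
  intro ε hε
  obtain ⟨δ, hδ, hd⟩ := hr y hy ε hε
  obtain ⟨g, hgS, hg⟩ := Metric.dense_iff.mp hS (y - x + δ / 2) (δ / 2) (by positivity)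
  rw [Metric.mem_ball, Real.dist_eq, abs_lt] at hgS
  have h1 : y < x + g := by linarith [hgS.1]
  have h2 : x + g < y + δ := by linarith [hgS.2]
  have h3 := hs g hg x hx (by linarith)
  have h4 := hd (x + g) h1 h2
  rw [abs_lt] at h4
  linarith [h4.1]

theorem abstract_main {Φ : ℝ → ℝ} (hΦ : Continuous Φ)
    (m0 : ∀ α β, c ≤ α → 0 ≤ m α β)
    (mmono : ∀ α β β', c ≤ α → β ≤ β' → m α β ≤ m α β')
    (msub : ∀ α β γ, c ≤ α → c ≤ β → m α γ ≤ m α β + m β γ)
    (msup : ∀ α β β' γ, c ≤ α → α ≤ β → β < β' → β' ≤ γ → m α β + m β' γ ≤ m α γ)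
    {A B : Set ℝ} (hA : A.Nonempty) (hB : B.Nonempty)
    (hpA : ∀ x ∈ A, 0 < x) (hpB : ∀ x ∈ B, 0 < x)
    (hd : Dense (AddSubgroup.closure (A ∪ B) : Set ℝ))
    (hU : ∀ ℓ ∈ A, ∀ x, c < x → ∀ ε > 0, ∃ α, x < α ∧ α < x + ε ∧
      ∀ η > 0, η < ℓ → m α (α + ℓ - η) ≤ Φ (α + ℓ) - Φ α)
    (hL : ∀ ℓ ∈ B, ∀ x, c < x → ∀ ε > 0, ∃ α, x < α ∧ α < x + ε ∧
      ∀ η > 0, Φ (α + ℓ) - Φ α ≤ m α (α + ℓ + η)) :
    ∀ α β, c < α → α < β → m α β = Φ β - Φ α := by
  set G : ℝ → ℝ := rlim m c with hG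
  have hcont : ∀ x ε : ℝ, 0 < ε → ∃ δ > 0, ∀ y, |y - x| < δ → |Φ y - Φ x| < ε := by
    intro x ε hε
    have := Metric.continuous_iff.mp hΦ x ε hε
    simpa [Real.dist_eq] using this
  -- upper
  have hup : ∀ ℓ ∈ A, ∀ x, c < x → G (x + ℓ) - Φ (x + ℓ) ≤ G x - Φ x := by
    intro ℓ hℓ x hx
    apply le_of_forall_pos_le_add
    intro ε hε
    have hℓ0 := hpA ℓ hℓ
    obtain ⟨δ₁, hδ₁, h1⟩ := hcont x (ε / 3) (by positivity)
    obtain ⟨δ₂, hδ₂, h2⟩ := hcont (x + ℓ) (ε / 3) (by positivity)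
    obtain ⟨y, hxy, hy⟩ := exists_lt_rlim (m := m) (c := c) (x := x) (ε := ε / 3) (by positivity)
    obtain ⟨α, hα1, hα2, hα3⟩ := hU ℓ hℓ x hx (min (min δ₁ δ₂) (y - x))
      (lt_min (lt_min hδ₁ hδ₂) (by linarith))
    have hαδ₁ : α < x + δ₁ := lt_of_lt_of_le hα2 (by
      have := min_le_left (min δ₁ δ₂) (y - x)
      have := min_le_left δ₁ δ₂
      linarith)
    have hαδ₂ : α < x + δ₂ := lt_of_lt_of_le hα2 (by
      have := min_le_left (min δ₁ δ₂) (y - x)
      have := min_le_right δ₁ δ₂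
      linarith)
    have hαy : α < y := lt_of_lt_of_le hα2 (by
      have := min_le_right (min δ₁ δ₂) (y - x)
      linarith)
    have h3 := h1 α (by rw [abs_lt]; constructor <;> linarith)
    have h4 := h2 (α + ℓ) (by rw [abs_lt]; constructor <;> linarith)
    rw [abs_lt] at h3 h4
    set η := min ((α - x) / 2) (ℓ / 2) with hη
    have hη0 : 0 < η := lt_min (by linarith) (by linarith)
    have hη1 : η ≤ (α - x) / 2 := min_le_left _ _
    have hη2 : η ≤ ℓ / 2 := min_le_right _ _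
    have h5 := hα3 η hη0 (by linarith)
    have h6 : G (x + ℓ) ≤ m c (α + ℓ - η) := rlim_le m0 (by linarith)
    have h7 := msub c α (α + ℓ - η) le_rfl (by linarith)
    have h8 := mmono c α y le_rfl hαy.le
    linarith [h3.1, h3.2, h4.1, h4.2]
  -- lower
  have hlo : ∀ ℓ ∈ B, ∀ x, c < x → G x - Φ x ≤ G (x + ℓ) - Φ (x + ℓ) := by
    intro ℓ hℓ x hx
    apply le_of_forall_pos_le_add
    intro ε hε
    have hℓ0 := hpB ℓ hℓ
    obtain ⟨δ₁, hδ₁, h1⟩ := hcont x (ε / 3) (by positivity)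
    obtain ⟨δ₂, hδ₂, h2⟩ := hcont (x + ℓ) (ε / 3) (by positivity)
    obtain ⟨y, hxy, hy⟩ := exists_lt_rlim (m := m) (c := c) (x := x + ℓ) (ε := ε / 3)
      (by positivity)
    obtain ⟨α, hα1, hα2, hα3⟩ := hL ℓ hℓ x hx (min (min δ₁ δ₂) (y - (x + ℓ)))
      (lt_min (lt_min hδ₁ hδ₂) (by linarith))
    have hαδ₁ : α < x + δ₁ := lt_of_lt_of_le hα2 (by
      have := min_le_left (min δ₁ δ₂) (y - (x + ℓ))
      have := min_le_left δ₁ δ₂
      linarith)
    have hαδ₂ : α < x + δ₂ := lt_of_lt_of_le hα2 (by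
      have := min_le_left (min δ₁ δ₂) (y - (x + ℓ))
      have := min_le_right δ₁ δ₂
      linarith)
    have hαy : α + ℓ < y := by
      have := min_le_right (min δ₁ δ₂) (y - (x + ℓ))
      linarith
    have h3 := h1 α (by rw [abs_lt]; constructor <;> linarith)
    have h4 := h2 (α + ℓ) (by rw [abs_lt]; constructor <;> linarith)
    rw [abs_lt] at h3 h4
    have h5 := hα3 (y - ℓ - α) (by linarith)
    have e5 : α + ℓ + (y - ℓ - α) = y := by ring
    rw [e5] at h5
    have h6 : G x ≤ m c ((x + α) / 2) := rlim_le m0 (by linarith)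
    have h7 := msup c ((x + α) / 2) α y le_rfl (by linarith) (by linarith) (by linarith)
    linarith [h3.1, h3.2, h4.1, h4.2]
  -- right continuity
  have hrc : ∀ x, c < x → ∀ ε > 0, ∃ δ > 0, ∀ y, x < y → y < x + δ →
      |(G y - Φ y) - (G x - Φ x)| < ε := by
    intro x hx ε hε
    obtain ⟨δ₁, hδ₁, h1⟩ := hcont x (ε / 2) (by positivity)
    obtain ⟨y, hxy, hy⟩ := exists_lt_rlim (m := m) (c := c) (x := x) (ε := ε / 2) (by positivity)
    refine ⟨min δ₁ (y - x), lt_min hδ₁ (by linarith), ?_⟩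
    intro z hz1 hz2
    have hzδ : z < x + δ₁ := lt_of_lt_of_le hz2 (by
      have := min_le_left δ₁ (y - x)
      linarith)
    have hzy : z < y := lt_of_lt_of_le hz2 (by
      have := min_le_right δ₁ (y - x)
      linarith)
    have h3 := h1 z (by rw [abs_lt]; constructor <;> linarith)
    have h4 : G x ≤ G z := rlim_mono m0 hz1.le
    have h5 : G z ≤ m c y := rlim_le m0 hzy
    rw [abs_lt] at h3 ⊢
    constructor <;> linarith [h3.1, h3.2]
  -- the shift inequality on the semigroup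
  have hsemi : ∀ g ∈ diffSemi A B, ∀ z, c < z → c < z + g →
      G (z + g) - Φ (z + g) ≤ G z - Φ z := by
    intro g hg
    induction hg using AddSubmonoid.closure_induction with
    | mem x hx =>
      intro z hz hzg
      rcases hx with hx | hx
      · exact hup x hx z hz
      · rw [Set.mem_neg] at hx
        have := hlo (-x) hx (z + x) hzg
        rw [add_neg_cancel_right] at this
        exact this
    | zero => intro z _ _; simp
    | add x y _ _ ihx ihy =>
      intro z hz hzg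
      rcases lt_or_ge c (z + x) with h | h
      · have h1 := ihx z hz h
        have h2 := ihy (z + x) h (by linarith)
        rw [add_assoc] at h2
        linarith
      · have hy : c < z + y := by linarith
        have h1 := ihy z hz hy
        have h2 := ihx (z + y) hy (by linarith)
        have e : z + y + x = z + (x + y) := by ring
        rw [e] at h2
        linarith
  have hdense := dense_diffSemi hA hB hpA hpB hd
  have hconst : ∀ x y, c < x → c < y → G y - Φ y = G x - Φ x := by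
    intro x y hx hy
    exact le_antisymm
      (const_of_dense (h := fun x => G x - Φ x) hdense hrc hsemi hx hy)
      (const_of_dense (h := fun x => G x - Φ x) hdense hrc hsemi hy hx)
  -- m c x = G x
  have hmG : ∀ x, c < x → m c x = G x := by
    intro x hx
    apply le_antisymm
    · apply le_csInf
      · exact ⟨m c (x + 1), x + 1, by simp, rfl⟩
      · rintro _ ⟨z, hz, rfl⟩
        exact mmono c x z le_rfl (le_of_lt hz)
    · apply le_of_forall_pos_le_add
      intro ε hε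
      obtain ⟨δ₁, hδ₁, h1⟩ := hcont x ε hε
      set y := max (x - δ₁ / 2) ((c + x) / 2) with hy
      have hy1 : x - δ₁ / 2 ≤ y := le_max_left _ _
      have hy2 : (c + x) / 2 ≤ y := le_max_right _ _
      have hy3 : y < x := max_lt (by linarith) (by linarith)
      have h2 := hconst x y hx (by linarith)
      have h3 := h1 y (by rw [abs_lt]; constructor <;> linarith)
      have h4 : G y ≤ m c x := rlim_le m0 hy3
      rw [abs_lt] at h3
      linarith [h3.1, h3.2]
  intro α β hα hαβ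
  apply le_antisymm
  · -- m α β ≤ m c β - m c α' for α' < α
    apply le_of_forall_pos_le_add
    intro ε hε
    obtain ⟨δ₁, hδ₁, h1⟩ := hcont α ε hε
    set y := max (α - δ₁ / 2) ((c + α) / 2) with hy
    have hy1 : α - δ₁ / 2 ≤ y := le_max_left _ _
    have hy2 : (c + α) / 2 ≤ y := le_max_right _ _
    have hy3 : y < α := max_lt (by linarith) (by linarith)
    have h2 := msup c y α β le_rfl (by linarith) hy3 hαβ.le
    rw [hmG y (by linarith), hmG β (by linarith)] at h2
    have h3 := hconst y β (by linarith) (by linarith)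
    have h4 := h1 y (by rw [abs_lt]; constructor <;> linarith)
    rw [abs_lt] at h4
    linarith [h4.1, h4.2]
  · have h2 := msub c α β le_rfl hα.le
    rw [hmG α hα, hmG β (by linarith)] at h2
    have h3 := hconst α β hα (by linarith)
    linarith

end

end Pool.Agent.Helper56.PC
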