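import Mathlib

open Set Filter Topology Pointwise

namespace Pool.Agent.Helper56.PC

/-- the semigroup of differences ⟨A⟩ - ⟨B⟩ -/
def diffSemi (A B : Set ℝ) : AddSubmonoid ℝ := AddSubmonoid.closure (A ∪ -B)

lemma mem_diffSemi_left {A B : Set ℝ} {x : ℝ} (h : x ∈ A) : x ∈ diffSemi A B :=
  AddSubmonoid.subset_closure (Or.inl h)

lemma mem_diffSemi_right {A B : Set ℝ} {x : ℝ} (h : x ∈ B) : -x ∈ diffSemi A B :=
  AddSubmonoid.subset_closure (Or.inr (by simpa using h))

/-- Dirichlet approximation: some positive multiple of x is close to a nonnegative multiple of y. -/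
lemma exists_near {x y : ℝ} (hx : 0 < x) (hy : 0 < y) {ε : ℝ} (hε : 0 < ε) :
    ∃ k m : ℕ, |((k:ℝ) + 1) * x - m * y| < ε := by
  obtain ⟨n, hn⟩ := exists_nat_gt (y / ε)
  have hn0 : 0 < n := by
    have : (0:ℝ) < n := lt_trans (by positivity) hn
    exact_mod_cast this
  obtain ⟨k, hk0, hkn, hk⟩ := Real.exists_nat_abs_mul_sub_round_le (x / y) hn0
  have hξ : 0 ≤ (k:ℝ) * (x / y) := by positivity
  have hr : 0 ≤ round ((k:ℝ) * (x / y)) := by
    rw [round_eq]
    apply Int.floor_nonneg.mpr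
    linarith
  obtain ⟨m, hm⟩ := Int.eq_ofNat_of_zero_le hr
  refine ⟨k - 1, m, ?_⟩
  have hk1 : ((k - 1 : ℕ) : ℝ) + 1 = k := by
    have : 1 ≤ k := hk0
    push_cast [this]
    ring
  rw [hk1]
  rw [hm] at hk
  have h1 : (k:ℝ) * x - m * y = y * ((k:ℝ) * (x / y) - ((m:ℤ):ℝ)) := by
    field_simp
    push_cast
    ring
  rw [h1, abs_mul, abs_of_pos hy]
  have h2 : (1:ℝ) / ((n:ℝ) + 1) < ε / y := by
    rw [div_lt_div_iff₀ (by positivity) hy]
    rw [div_lt_iff₀ hε] at hn
    nlinarith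
  calc y * |(k:ℝ) * (x / y) - ((m:ℤ):ℝ)| ≤ y * (1 / ((n:ℝ) + 1)) :=
        mul_le_mul_of_nonneg_left hk hy.le
    _ < y * (ε / y) := mul_lt_mul_of_pos_left h2 hy
    _ = ε := by field_simp

lemma neg_mem_closure {A B : Set ℝ} (hB : B.Nonempty)
    (hpA : ∀ x ∈ A, 0 < x) (hpB : ∀ x ∈ B, 0 < x) {x : ℝ} (hx : x ∈ A) :
    -x ∈ closure (diffSemi A B : Set ℝ) := by
  obtain ⟨b, hb⟩ := hB
  rw [Metric.mem_closure_iff]
  intro ε hε
  obtain ⟨k, m, hkm⟩ := exists_near (hpA x hx) (hpB b hb) hε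
  refine ⟨k • x + m • (-b), ?_, ?_⟩
  · exact add_mem (AddSubmonoid.nsmul_mem _ (mem_diffSemi_left hx) k)
      (AddSubmonoid.nsmul_mem _ (mem_diffSemi_right hb) m)
  · rw [Real.dist_eq]
    have : -x - (k • x + m • (-b)) = -(((k:ℝ) + 1) * x - m * b) := by
      simp only [nsmul_eq_mul]; ring
    rw [this, abs_neg]
    exact hkm

lemma pos_mem_closure {A B : Set ℝ} (hA : A.Nonempty)
    (hpA : ∀ x ∈ A, 0 < x) (hpB : ∀ x ∈ B, 0 < x) {x : ℝ} (hx : x ∈ B) :
    x ∈ closure (diffSemi A B : Set ℝ) := by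
  obtain ⟨a, ha⟩ := hA
  rw [Metric.mem_closure_iff]
  intro ε hε
  obtain ⟨k, m, hkm⟩ := exists_near (hpB x hx) (hpA a ha) hε
  refine ⟨m • a + k • (-x), ?_, ?_⟩
  · exact add_mem (AddSubmonoid.nsmul_mem _ (mem_diffSemi_left ha) m)
      (AddSubmonoid.nsmul_mem _ (mem_diffSemi_right hx) k)
  · rw [Real.dist_eq]
    have : x - (m • a + k • (-x)) = (((k:ℝ) + 1) * x - m * a) := by
      simp only [nsmul_eq_mul]; ring
    rw [this]
    exact hkm

lemma dense_diffSemi {A B : Set ℝ} (hA : A.Nonempty) (hB : B.Nonempty)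
    (hpA : ∀ x ∈ A, 0 < x) (hpB : ∀ x ∈ B, 0 < x)
    (hd : Dense (AddSubgroup.closure (A ∪ B) : Set ℝ)) : Dense (diffSemi A B : Set ℝ) := by
  set S := diffSemi A B with hS
  have hcl : (AddSubgroup.closure (A ∪ B) : Set ℝ) ⊆ closure (S : Set ℝ) := by
    have h1 : (AddSubgroup.closure (A ∪ B)).toAddSubmonoid ≤ S.topologicalClosure := by
      rw [AddSubgroup.closure_toAddSubmonoid, AddSubmonoid.closure_le]
      rintro x (hx | hx)
      · rcases hx with hx | hx
        · exact subset_closure (mem_diffSemi_left hx)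
        · exact pos_mem_closure hA hpA hpB hx
      · rw [Set.mem_neg] at hx
        rcases hx with hx | hx
        · have := neg_mem_closure hB hpA hpB hx
          rw [neg_neg] at this
          exact this
        · have := mem_diffSemi_right (A := A) hx
          rw [neg_neg] at this
          exact subset_closure this
    intro x hx
    exact h1 hx
  have h2 := hd.closure_eq
  rw [dense_iff_closure_eq]
  apply Set.eq_univ_of_univ_subset
  rw [← h2]
  exact closure_minimal hcl isClosed_closure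

end Pool.Agent.Helper56.PC
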