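import Pool.Agent.Helper57.PC.Count
import Pool.Agent.Helper56.PC.Abstract

open Set Filter Topology
open Pool.Agent.Helper57.PC Pool.Agent.Helper57.Zeta

namespace Pool.Agent.Helper56.PC

lemma SN_pos' {T : ℝ} (hT : 1 < T) : 0 < SN T := by
  unfold SN
  have := Real.log_pos hT
  have := Real.pi_pos
  positivity

lemma exists_index {τ : ℕ → ℝ} (hτ : Tendsto τ atTop atTop) :
    ∃ J : ℝ → ℕ, Tendsto J atTop atTop ∧ ∀ᶠ T in atTop, τ (J T) ≤ T ∧ T < τ (J T + 1) := by
  classical
  have hex : ∀ T : ℝ, ∃ n, T < τ n := fun T => (hτ.eventually_gt_atTop T).exists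
  refine ⟨fun T => Nat.find (hex T) - 1, ?_, ?_⟩
  · rw [tendsto_atTop]
    intro b
    have h1 : ∀ᶠ T in atTop, ∀ i ∈ Finset.range (b + 1), τ i ≤ T := by
      rw [Filter.eventually_all_finset]
      intro i _
      exact eventually_ge_atTop (τ i)
    filter_upwards [h1] with T hT
    have h2 : b < Nat.find (hex T) := by
      rw [Nat.lt_find_iff]
      intro i hi
      rw [not_lt]
      exact hT i (Finset.mem_range.mpr (by omega))
    omega
  · filter_upwards [eventually_ge_atTop (τ 0)] with T hT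
    have h0 : 0 < Nat.find (hex T) := by
      rw [Nat.find_pos]
      rw [not_lt]
      exact hT
    constructor
    · have := Nat.find_min (hex T) (m := Nat.find (hex T) - 1) (by omega)
      rw [not_lt] at this
      exact this
    · have h1 : Nat.find (hex T) - 1 + 1 = Nat.find (hex T) := by omega
      rw [h1]
      exact Nat.find_spec (hex T)

lemma index_ratio {τ : ℕ → ℝ} (hτ : Tendsto τ atTop atTop)
    (hr : Tendsto (fun n => τ (n + 1) / τ n) atTop (𝓝 1)) {J : ℝ → ℕ}
    (hJ : Tendsto J atTop atTop) (hJ2 : ∀ᶠ T in atTop, τ (J T) ≤ T ∧ T < τ (J T + 1)) :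
    Tendsto (fun T => τ (J T) / T) atTop (𝓝 1) ∧
    Tendsto (fun T => τ (J T + 1) / T) atTop (𝓝 1) := by
  have hr' : Tendsto (fun T => τ (J T + 1) / τ (J T)) atTop (𝓝 1) := hr.comp hJ
  have hr'' : Tendsto (fun T => (τ (J T + 1) / τ (J T))⁻¹) atTop (𝓝 1) := by
    have := hr'.inv₀ one_ne_zero
    rwa [inv_one] at this
  have hpos : ∀ᶠ T in atTop, 0 < τ (J T) := (hτ.comp hJ).eventually_gt_atTop 0
  constructor
  · refine tendsto_of_tendsto_of_tendsto_of_le_of_le' hr'' tendsto_const_nhds ?_ ?_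
    · filter_upwards [hJ2, hpos] with T h1 h2
      rw [inv_div]
      exact div_le_div_of_nonneg_left h2.le (by linarith [h1.1]) h1.2.le
    · filter_upwards [hJ2, hpos] with T h1 h2
      exact (div_le_one (by linarith [h1.1])).mpr h1.1
  · refine tendsto_of_tendsto_of_tendsto_of_le_of_le' tendsto_const_nhds hr' ?_ ?_
    · filter_upwards [hJ2, hpos] with T h1 h2
      exact (one_le_div (by linarith [h1.1])).mpr h1.2.le
    · filter_upwards [hJ2, hpos] with T h1 h2
      exact div_le_div_of_nonneg_left (by linarith [h1.1, h1.2]) h2 h1.1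

lemma log_ratio {f : ℝ → ℝ} (hf : Tendsto (fun T => f T / T) atTop (𝓝 1)) :
    Tendsto (fun T => Real.log (f T) / Real.log T) atTop (𝓝 1) := by
  have h1 : Tendsto (fun T => Real.log (f T / T)) atTop (𝓝 0) := by
    have := (Real.continuousAt_log one_ne_zero).tendsto.comp hf
    rwa [Real.log_one] at this
  have h2 : Tendsto (fun T => Real.log (f T / T) / Real.log T) atTop (𝓝 0) :=
    h1.div_atTop Real.tendsto_log_atTop
  have h3 : Tendsto (fun T => Real.log (f T / T) / Real.log T + 1) atTop (𝓝 1) := by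
    have := h2.add_const 1
    rwa [zero_add] at this
  refine h3.congr' ?_
  filter_upwards [eventually_gt_atTop 1, hf.eventually (lt_mem_nhds (show (0:ℝ) < 1 by norm_num))]
    with T hT hT2
  have hT0 : 0 < T := by linarith
  have hfT : 0 < f T := by
    by_contra hcon
    rw [not_lt] at hcon
    have := div_nonpos_of_nonpos_of_nonneg hcon hT0.le
    linarith
  rw [Real.log_div hfT.ne' hT0.ne']
  have := Real.log_pos hT
  field_simp
  ring

lemma SN_ratio {f : ℝ → ℝ} (hf : Tendsto (fun T => f T / T) atTop (𝓝 1)) :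
    Tendsto (fun T => SN (f T) / SN T) atTop (𝓝 1) := by
  have h := hf.mul (log_ratio hf)
  rw [one_mul] at h
  refine h.congr' ?_
  filter_upwards [eventually_gt_atTop 1] with T hT
  unfold SN
  have := Real.log_pos hT
  have := Real.pi_pos
  field_simp

lemma pairCount_scale {T T' a b b' : ℝ} (hT : 1 < T) (hTT : T ≤ T') (ha : 0 ≤ a)
    (hb : b * (Real.log T' / Real.log T) ≤ b') : pairCount T a b ≤ pairCount T' a b' := by
  classical
  rw [pairCount_eq, pairCount_eq]
  have hsub : Zf T ×ˢ Zf T ⊆ Zf T' ×ˢ Zf T' := by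
    apply Finset.product_subset_product
    all_goals
      intro ρ hρ
      rw [mem_Zf] at hρ ⊢
      exact ⟨hρ.1, hρ.2.1, hρ.2.2.trans hTT⟩
  have hL : 0 < Real.log T := Real.log_pos hT
  have hr : 1 ≤ Real.log T' / Real.log T := by
    rw [one_le_div hL]
    exact Real.log_le_log (by linarith) hTT
  have hnd : ∀ p : ℂ × ℂ, nd T' p = nd T p * (Real.log T' / Real.log T) := by
    intro p
    unfold nd
    have := Real.pi_pos
    field_simp
  calc ∑ p ∈ Zf T ×ˢ Zf T, (if nd T p ∈ Icc a b then (mult p.1 : ℝ) * (mult p.2 : ℝ) else 0)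
      ≤ ∑ p ∈ Zf T ×ˢ Zf T,
          (if nd T' p ∈ Icc a b' then (mult p.1 : ℝ) * (mult p.2 : ℝ) else 0) := by
        apply Finset.sum_le_sum
        intro p _
        by_cases h : nd T p ∈ Icc a b
        · have h2 : nd T' p ∈ Icc a b' := by
            rw [hnd]
            have h0 : 0 ≤ nd T p := ha.trans h.1
            constructor
            · exact h.1.trans (le_mul_of_one_le_right h0 hr)
            · exact (mul_le_mul_of_nonneg_right h.2 (by linarith)).trans hb
          rw [if_pos h, if_pos h2]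
        · rw [if_neg h]
          split_ifs <;> positivity
    _ ≤ _ := by
        apply Finset.sum_le_sum_of_subset_of_nonneg hsub
        intro p _ _
        split_ifs <;> positivity

section
variable {τ : ℕ → ℝ}

lemma upper_transfer (hτ : Tendsto τ atTop atTop)
    (hr : Tendsto (fun n => τ (n + 1) / τ n) atTop (𝓝 1)) {α ℓ η I : ℝ} (hα : 0 < α)
    (hη : 0 < η)
    (h : ∀ δ > 0, ∀ᶠ n in atTop, pairCount (τ n) α (α + ℓ) ≤ (I + δ) * SN (τ n)) :
    ∀ δ > 0, ∀ᶠ T in atTop, pairCount T α (α + ℓ - η) ≤ (I + δ) * SN T := by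
  intro δ hδ
  obtain ⟨J, hJ, hJ2⟩ := exists_index hτ
  have hf := (index_ratio hτ hr hJ hJ2).2
  have hJ1 : Tendsto (fun T => J T + 1) atTop atTop := 
    tendsto_atTop_mono (fun T => Nat.le_succ (J T)) hJ
  have h1 := hJ1.eventually (h (δ / 2) (by positivity))
  have h2 : Tendsto (fun T => (α + ℓ - η) * (Real.log (τ (J T + 1)) / Real.log T)) atTop
      (𝓝 (α + ℓ - η)) := by
    have := (log_ratio hf).const_mul (α + ℓ - η)
    rwa [mul_one] at this
  have h3 : Tendsto (fun T => (I + δ / 2) * (SN (τ (J T + 1)) / SN T)) atTop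
      (𝓝 (I + δ / 2)) := by
    have := (SN_ratio hf).const_mul (I + δ / 2)
    rwa [mul_one] at this
  filter_upwards [eventually_gt_atTop 1, hJ2, h1,
    h2.eventually (gt_mem_nhds (show α + ℓ - η < α + ℓ by linarith)),
    h3.eventually (gt_mem_nhds (show I + δ / 2 < I + δ by linarith))] with T hT hT2 hT3 hT4 hT5
  have hS := SN_pos' hT
  have h4 := pairCount_scale hT hT2.2.le hα.le hT4.le
  refine h4.trans (hT3.trans ?_)
  have h5 : (I + δ / 2) * SN (τ (J T + 1)) = (I + δ / 2) * (SN (τ (J T + 1)) / SN T) * SN T := by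
    field_simp
  rw [h5]
  exact mul_le_mul_of_nonneg_right hT5.le hS.le

lemma lower_transfer (hτ : Tendsto τ atTop atTop)
    (hr : Tendsto (fun n => τ (n + 1) / τ n) atTop (𝓝 1)) {α ℓ η I : ℝ} (hα : 0 < α)
    (hη : 0 < η)
    (h : ∀ δ > 0, ∀ᶠ n in atTop, (I - δ) * SN (τ n) ≤ pairCount (τ n) α (α + ℓ)) :
    ∀ δ > 0, ∀ᶠ T in atTop, (I - δ) * SN T ≤ pairCount T α (α + ℓ + η) := by
  intro δ hδ
  obtain ⟨J, hJ, hJ2⟩ := exists_index hτ
  have hf := (index_ratio hτ hr hJ hJ2).1
  have h1 := hJ.eventually (h (δ / 2) (by positivity))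
  have hlr : Tendsto (fun T => Real.log T / Real.log (τ (J T))) atTop (𝓝 1) := by
    have := (log_ratio hf).inv₀ one_ne_zero
    rw [inv_one] at this
    refine this.congr ?_
    intro T
    rw [inv_div]
  have h2 : Tendsto (fun T => (α + ℓ) * (Real.log T / Real.log (τ (J T)))) atTop
      (𝓝 (α + ℓ)) := by
    have := hlr.const_mul (α + ℓ)
    rwa [mul_one] at this
  have h3 : Tendsto (fun T => (I - δ / 2) * (SN (τ (J T)) / SN T)) atTop
      (𝓝 (I - δ / 2)) := by
    have := (SN_ratio hf).const_mul (I - δ / 2)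
    rwa [mul_one] at this
  filter_upwards [eventually_gt_atTop 1, hJ2, h1, (hτ.comp hJ).eventually_gt_atTop 1,
    h2.eventually (gt_mem_nhds (show α + ℓ < α + ℓ + η by linarith)),
    h3.eventually (lt_mem_nhds (show I - δ < I - δ / 2 by linarith))]
    with T hT hT2 hT3 hT6 hT4 hT5
  have hS := SN_pos' hT
  have h4 := pairCount_scale (T := τ (J T)) (T' := T) hT6 hT2.1 hα.le hT4.le
  refine le_trans ?_ (hT3.trans h4)
  have h5 : (I - δ / 2) * SN (τ (J T)) = (I - δ / 2) * (SN (τ (J T)) / SN T) * SN T := by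
    field_simp
  rw [h5]
  exact mul_le_mul_of_nonneg_right hT5.le hS.le

end

/-- local boundedness from upper bounds at one length -/
lemma bounded_count {c ℓ : ℝ} (hc : 0 < c) (hℓ : 0 < ℓ)
    (h : ∀ x, 0 < x → ∀ ε > 0, ∃ α, x < α ∧ α < x + ε ∧ ∃ C, ∀ᶠ T in atTop,
      pairCount T α (α + ℓ / 2) ≤ C * SN T) (β : ℝ) :
    ∃ C, 0 ≤ C ∧ ∀ᶠ T in atTop, pairCount T c β ≤ C * SN T := by
  have h1 : ∀ x, c ≤ x → ∃ C, ∀ᶠ T in atTop, pairCount T x (x + ℓ / 4) ≤ C * SN T := by
    intro x hx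
    set y := max (c / 2) (x - ℓ / 8) with hy
    have hy1 : c / 2 ≤ y := le_max_left _ _
    have hy2 : x - ℓ / 8 ≤ y := le_max_right _ _
    have hy3 : y < x := max_lt (by linarith) (by linarith)
    obtain ⟨α, ha1, ha2, C, hC⟩ := h y (by linarith) (x - y) (by linarith)
    refine ⟨C, ?_⟩
    filter_upwards [hC] with T hT
    refine le_trans (pairCount_mono T ?_ ?_) hT
    · linarith
    · linarith
  have h2 : ∀ k : ℕ, ∃ C, ∀ᶠ T in atTop, pairCount T c (c + ((k:ℝ) + 1) * (ℓ / 4)) ≤ C * SN T := by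
    intro k
    induction k with
    | zero =>
      obtain ⟨C, hC⟩ := h1 c le_rfl
      refine ⟨C, ?_⟩
      filter_upwards [hC] with T hT
      refine le_trans (pairCount_mono T le_rfl ?_) hT
      push_cast; linarith
    | succ k ih =>
      obtain ⟨C, hC⟩ := ih
      have hk : (0:ℝ) ≤ k := Nat.cast_nonneg k
      obtain ⟨C', hC'⟩ := h1 (c + ((k:ℝ) + 1) * (ℓ / 4)) (by nlinarith)
      refine ⟨C + C', ?_⟩
      filter_upwards [hC, hC'] with T hT hT'
      have h3 := pairCount_split T c (c + ((k:ℝ) + 1) * (ℓ / 4))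
        (c + (((k + 1 : ℕ):ℝ) + 1) * (ℓ / 4))
      have e : c + (((k + 1 : ℕ):ℝ) + 1) * (ℓ / 4) = c + ((k:ℝ) + 1) * (ℓ / 4) + ℓ / 4 := by
        push_cast; ring
      rw [e] at h3 ⊢
      have e2 : (C + C') * SN T = C * SN T + C' * SN T := by ring
      rw [e2]
      linarith
  obtain ⟨k, hk⟩ := exists_nat_gt ((β - c) / (ℓ / 4))
  obtain ⟨C, hC⟩ := h2 k
  refine ⟨max C 0, le_max_right _ _, ?_⟩
  filter_upwards [hC, eventually_gt_atTop 1] with T hT hT1
  have hS := SN_pos' hT1
  have h3 : β ≤ c + ((k:ℝ) + 1) * (ℓ / 4) := by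
    rw [div_lt_iff₀ (by positivity)] at hk
    nlinarith
  refine (pairCount_mono T le_rfl h3).trans (hT.trans ?_)
  exact mul_le_mul_of_nonneg_right (le_max_left _ _) hS.le

/-- Upper bounds along windows with lengths in A and lower bounds along windows with lengths in B
suffice, if A ∪ B generates a dense subgroup. -/
theorem main {τ : ℕ → ℝ} (hτ : Tendsto τ atTop atTop)
    (hr : Tendsto (fun n => τ (n + 1) / τ n) atTop (𝓝 1))
    {A B : Set ℝ} (hA : A.Nonempty) (hB : B.Nonempty)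
    (hpA : ∀ x ∈ A, 0 < x) (hpB : ∀ x ∈ B, 0 < x)
    (hd : Dense (AddSubgroup.closure (A ∪ B) : Set ℝ))
    (hU : ∀ ℓ ∈ A, ∀ x, 0 < x → ∀ ε > 0, ∃ α, x < α ∧ α < x + ε ∧ ∀ δ > 0, ∀ᶠ n in atTop,
      pairCount (τ n) α (α + ℓ) ≤ ((∫ u in α..(α + ℓ), pcDensity u) + δ) * SN (τ n))
    (hL : ∀ ℓ ∈ B, ∀ x, 0 < x → ∀ ε > 0, ∃ α, x < α ∧ α < x + ε ∧ ∀ δ > 0, ∀ᶠ n in atTop,
      ((∫ u in α..(α + ℓ), pcDensity u) - δ) * SN (τ n) ≤ pairCount (τ n) α (α + ℓ)) :
    ∀ α β, 0 < α → α < β →
      Tendsto (fun T => pairCount T α β / SN T) atTop (𝓝 (∫ u in α..β, pcDensity u)) := by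
  intro α₀ β₀ hα₀ hαβ
  have hii := intervalIntegrable_pcDensity
  -- boundedness
  have hbd : ∀ c, 0 < c → ∀ β : ℝ, ∃ C, 0 ≤ C ∧ ∀ᶠ T in atTop, pairCount T c β ≤ C * SN T := by
    intro c hc β
    obtain ⟨ℓ, hℓ⟩ := hA
    have hℓ0 := hpA ℓ hℓ
    refine bounded_count (ℓ := ℓ) hc hℓ0 ?_ β
    intro x hx ε hε
    obtain ⟨α, h1, h2, h3⟩ := hU ℓ hℓ x hx ε hε
    refine ⟨α, h1, h2, (∫ u in α..(α + ℓ), pcDensity u) + 1, ?_⟩
    have h4 := upper_transfer hτ hr (α := α) (ℓ := ℓ) (η := ℓ / 2) (by linarith) (by linarith) h3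
      1 one_pos
    filter_upwards [h4] with T hT
    have e : α + ℓ - ℓ / 2 = α + ℓ / 2 := by ring
    rwa [e] at hT
  rw [tendsto_iff_ultrafilter]
  intro 𝒰 h𝒰
  set c : ℝ := α₀ / 2 with hc
  have hc0 : 0 < c := by positivity
  set m : ℝ → ℝ → ℝ := fun α β => limUnder (𝒰 : Filter ℝ) (fun T => pairCount T α β / SN T) with hm
  have hgt1 : ∀ᶠ T in (𝒰 : Filter ℝ), 1 < T := h𝒰 (eventually_gt_atTop 1)
  have hlim : ∀ α β, c ≤ α → Tendsto (fun T => pairCount T α β / SN T) 𝒰 (𝓝 (m α β)) := by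
    intro α β hα
    apply tendsto_nhds_limUnder
    obtain ⟨C, hC0, hC⟩ := hbd c hc0 β
    have h1 : ∀ᶠ T in (𝒰 : Filter ℝ), pairCount T α β / SN T ∈ Icc 0 C := by
      filter_upwards [h𝒰 hC, hgt1] with T hT hT1
      have hS := SN_pos' hT1
      constructor
      · exact div_nonneg (pairCount_nonneg _ _ _) hS.le
      · rw [div_le_iff₀ hS]
        exact (pairCount_mono T hα le_rfl).trans hT
    obtain ⟨x, _, hx⟩ := isCompact_Icc.ultrafilter_le_nhds
      (𝒰.map (fun T => pairCount T α β / SN T)) (by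
        rw [le_principal_iff, Ultrafilter.coe_map]
        exact h1)
    exact ⟨x, hx⟩
  have hΦ : Continuous (fun x => ∫ u in c..x, pcDensity u) :=
    intervalIntegral.continuous_primitive hii c
  have hΦd : ∀ a b : ℝ, (∫ u in c..b, pcDensity u) - (∫ u in c..a, pcDensity u) =
      ∫ u in a..b, pcDensity u := fun a b =>
    intervalIntegral.integral_interval_sub_left (hii c b) (hii c a)
  have key := abstract_main (m := m) (c := c) (Φ := fun x => ∫ u in c..x, pcDensity u) hΦ
    (by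
      intro α β hα
      refine ge_of_tendsto (hlim α β hα) ?_
      filter_upwards [hgt1] with T hT1
      exact div_nonneg (pairCount_nonneg _ _ _) (SN_pos' hT1).le)
    (by
      intro α β β' hα hββ'
      refine le_of_tendsto_of_tendsto (hlim α β hα) (hlim α β' hα) ?_
      filter_upwards [hgt1] with T hT1
      exact div_le_div_of_nonneg_right (pairCount_mono T le_rfl hββ') (SN_pos' hT1).le)
    (by
      intro α β γ hα hβ
      refine le_of_tendsto_of_tendsto (hlim α γ hα) ((hlim α β hα).add (hlim β γ hβ)) ?_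
      filter_upwards [hgt1] with T hT1
      rw [← add_div]
      exact div_le_div_of_nonneg_right (pairCount_split T α β γ) (SN_pos' hT1).le)
    (by
      intro α β β' γ hα hαβ hββ' hγ
      refine le_of_tendsto_of_tendsto ((hlim α β hα).add (hlim β' γ (by linarith)))
        (hlim α γ hα) ?_
      filter_upwards [hgt1] with T hT1
      rw [← add_div]
      refine div_le_div_of_nonneg_right ?_ (SN_pos' hT1).le
      classical
      rw [pairCount_eq, pairCount_eq, pairCount_eq, ← Finset.sum_add_distrib]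
      apply Finset.sum_le_sum
      intro p _
      have hm : (0:ℝ) ≤ (mult p.1 : ℝ) * (mult p.2 : ℝ) := by positivity
      by_cases h1 : nd T p ∈ Icc α β
      · have h2 : nd T p ∉ Icc β' γ := fun h => by linarith [h1.2, h.1]
        have h3 : nd T p ∈ Icc α γ := ⟨h1.1, by linarith [h1.2]⟩
        rw [if_pos h1, if_neg h2, if_pos h3, add_zero]
      · by_cases h2 : nd T p ∈ Icc β' γ
        · have h3 : nd T p ∈ Icc α γ := ⟨by linarith [h2.1], h2.2⟩
          rw [if_neg h1, if_pos h2, if_pos h3, zero_add]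
        · rw [if_neg h1, if_neg h2, add_zero]
          split_ifs <;> linarith)
    hA hB hpA hpB hd
    (by
      intro ℓ hℓ x hx ε hε
      obtain ⟨α, h1, h2, h3⟩ := hU ℓ hℓ x (by linarith) ε hε
      refine ⟨α, h1, h2, ?_⟩
      intro η hη hηℓ
      show m α (α + ℓ - η) ≤ (∫ u in c..(α + ℓ), pcDensity u) - (∫ u in c..α, pcDensity u)
      rw [hΦd]
      apply le_of_forall_pos_le_add
      intro δ hδ
      have h4 := upper_transfer hτ hr (α := α) (ℓ := ℓ) (η := η) (by linarith) hη h3 δ hδ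
      refine le_of_tendsto (hlim α (α + ℓ - η) (by linarith)) ?_
      filter_upwards [h𝒰 h4, hgt1] with T hT hT1
      rw [div_le_iff₀ (SN_pos' hT1)]
      exact hT)
    (by
      intro ℓ hℓ x hx ε hε
      obtain ⟨α, h1, h2, h3⟩ := hL ℓ hℓ x (by linarith) ε hε
      refine ⟨α, h1, h2, ?_⟩
      intro η hη
      show (∫ u in c..(α + ℓ), pcDensity u) - (∫ u in c..α, pcDensity u) ≤ m α (α + ℓ + η)
      rw [hΦd]
      apply le_of_forall_pos_le_add
      intro δ hδ
      have h4 := lower_transfer hτ hr (α := α) (ℓ := ℓ) (η := η) (by linarith) hη h3 δ hδ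
      rw [← sub_le_iff_le_add]
      refine ge_of_tendsto (hlim α (α + ℓ + η) (by linarith)) ?_
      filter_upwards [h𝒰 h4, hgt1] with T hT hT1
      rw [le_div_iff₀ (SN_pos' hT1)]
      exact hT)
  have h1 := key α₀ β₀ (by rw [hc]; linarith) hαβ
  have h2 : m α₀ β₀ = ∫ u in α₀..β₀, pcDensity u := by rw [h1]; exact hΦd α₀ β₀
  rw [← h2]
  exact hlim α₀ β₀ (by rw [hc]; linarith)

end Pool.Agent.Helper56.PC
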